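import Mathlib

/-!
# The length of `(A, C)`-commutative `n`-ary algebras

Every `k`-dimensional `(A, C)`-commutative `n`-ary algebra (`|A| ≠ 1`) over a field in which `2 ≠ 0`
has length at most the generalised Fibonacci number `F_{N_{n,a}}(k)`.
-/

set_option autoImplicit false

namespace Pool.Agent.Results.MP_dca5dd_al.LengthBound

universe u v

section Defs

variable {K : Type u} [Field K] {n : ℕ} {V : Type v} [AddCommGroup V] [Module K V]

/-- The `n`-ary product `m` is `(A, C)`-commutative: exchanging the arguments in two different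
positions of `A` changes the sign of the product, exchanging the arguments in two different
positions of `C` leaves it unchanged. -/
def ACCommutative (A C : Finset (Fin n)) (m : MultilinearMap K (fun _ : Fin n => V) V) : Prop :=
  (∀ i ∈ A, ∀ j ∈ A, i ≠ j → ∀ x : Fin n → V, m (x ∘ Equiv.swap i j) = - m x) ∧
  (∀ i ∈ C, ∀ j ∈ C, i ≠ j → ∀ x : Fin n → V, m (x ∘ Equiv.swap i j) = m x)

/-- `IsWord m S ℓ v`: `v` is the value of a word of length `ℓ` in the elements of `S`. -/
inductive IsWord (m : MultilinearMap K (fun _ : Fin n => V) V) (S : Set V) : ℕ → V → Prop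
  | gen (s : V) (hs : s ∈ S) : IsWord m S 1 s
  | op (ℓ : Fin n → ℕ) (w : Fin n → V) (h : ∀ i, IsWord m S (ℓ i) (w i)) :
      IsWord m S (∑ i, ℓ i) (m w)

/-- The span `L_i(S)` of the words of length at most `i`. -/
def wordSpan (m : MultilinearMap K (fun _ : Fin n => V) V) (S : Set V) (i : ℕ) : Submodule K V :=
  Submodule.span K {v | ∃ ℓ ≤ i, IsWord m S ℓ v}

/-- The length `l(S) = min {i ≥ 1 : L_i(S) = V}` of a generating set. -/
noncomputable def setLength (m : MultilinearMap K (fun _ : Fin n => V) V) (S : Set V) : ℕ :=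
  sInf {i | 1 ≤ i ∧ wordSpan m S i = ⊤}

/-- The length of the algebra: the supremum of `l(S)` over all finite sets `S` with
`⋃ L_i(S) = V`. -/
noncomputable def algLength (m : MultilinearMap K (fun _ : Fin n => V) V) : ℕ∞ :=
  ⨆ (S : Finset V) (_ : ∀ v : V, ∃ i, v ∈ wordSpan m (S : Set V) i),
    ((setLength m (S : Set V) : ℕ) : ℕ∞)

end Defs

/-- If `p_r` (the `r`-th prime) is the largest prime factor of `N`, then `topIndex N = r`. -/
def topIndex (N : ℕ) : ℕ := N.primeFactors.sup Nat.primeCounting

/-- The generalised Fibonacci numbers: if `N = p_1^{a_1} ⋯ p_r^{a_r}`, `p_i` the `i`-th prime, then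
`F_N(m) = a_1 F_N(m-1) + ⋯ + a_r F_N(m-r)`, with `F_N(m) = 1` for `m ≤ r`. (The `i`-th prime is
`Nat.nth Nat.Prime (i-1)`.) -/
noncomputable def genFib (N : ℕ) (m : ℕ) : ℕ :=
  if _h : m ≤ topIndex N then 1
  else ∑ i : Fin (topIndex N), N.factorization (Nat.nth Nat.Prime i) * genFib N (m - (i + 1))
termination_by m
decreasing_by omega

/-- `N_{n,a} = 2^{n-a+1} · 3 · 5 ⋯ p_a`. -/
noncomputable def Nna (n a : ℕ) : ℕ := 2 ^ (n - a + 1) * ∏ i ∈ Finset.Ico 1 a, Nat.nth Nat.Prime i

/-! ## Arithmetic of the generalised Fibonacci numbers -/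

lemma nth_prime_prime (i : ℕ) : (Nat.nth Nat.Prime i).Prime := Nat.prime_nth_prime i

lemma nth_prime_inj {i j : ℕ} (h : Nat.nth Nat.Prime i = Nat.nth Nat.Prime j) : i = j :=
  Nat.nth_injective Nat.infinite_setOfPred_prime h

lemma factorization_prod_nth (s : Finset ℕ) (j : ℕ) :
    (∏ i ∈ s, Nat.nth Nat.Prime i).factorization (Nat.nth Nat.Prime j) = if j ∈ s then 1 else 0 := by
  classical
  rw [Nat.factorization_prod (fun i _ => (nth_prime_prime i).ne_zero), Finsupp.finsetSum_apply]
  have h : ∀ i ∈ s, (Nat.nth Nat.Prime i).factorization (Nat.nth Nat.Prime j)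
      = if i = j then 1 else 0 := by
    intro i _
    rw [(nth_prime_prime i).factorization]
    by_cases hij : i = j
    · subst hij; simp
    · rw [if_neg hij, Finsupp.single_apply, if_neg]
      intro h; exact hij (nth_prime_inj h)
  rw [Finset.sum_congr rfl h, Finset.sum_ite_eq']

lemma Nna_ne_zero (n a : ℕ) : Nna n a ≠ 0 := by
  unfold Nna
  refine mul_ne_zero (pow_ne_zero _ (by norm_num)) ?_
  exact Finset.prod_ne_zero_iff.2 fun i _ => (nth_prime_prime i).ne_zero

lemma Nna_eq (n a : ℕ) (ha : 1 ≤ a) :
    Nna n a = 2 ^ (n - a) * ∏ i ∈ Finset.range a, Nat.nth Nat.Prime i := by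
  unfold Nna
  rw [Finset.range_eq_Ico, Finset.prod_eq_prod_Ico_succ_bot (by omega : 0 < a)]
  have h0 : Nat.nth Nat.Prime 0 = 2 := Nat.nth_prime_zero_eq_two
  rw [h0, pow_succ]; ring

lemma Nna_factorization (n a j : ℕ) (ha : 1 ≤ a) :
    (Nna n a).factorization (Nat.nth Nat.Prime j)
      = (if j = 0 then n - a else 0) + (if j < a then 1 else 0) := by
  rw [Nna_eq n a ha, Nat.factorization_mul (pow_ne_zero _ (by norm_num))
    (Finset.prod_ne_zero_iff.2 fun i _ => (nth_prime_prime i).ne_zero), Finsupp.add_apply,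
    factorization_prod_nth, Nat.factorization_pow, Finsupp.smul_apply]
  congr 1
  · have h0 : Nat.nth Nat.Prime 0 = 2 := Nat.nth_prime_zero_eq_two
    rw [Nat.prime_two.factorization, Finsupp.single_apply]
    by_cases hj : j = 0
    · subst hj; simp [h0]
    · rw [if_neg hj, if_neg]
      · simp
      · intro h; rw [← h0] at h; exact hj (nth_prime_inj h).symm
  · simp

lemma Nna_topIndex (n a : ℕ) (ha : 1 ≤ a) : topIndex (Nna n a) = a := by
  unfold topIndex
  apply le_antisymm
  · apply Finset.sup_le
    intro p hp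
    have hpp : p.Prime := Nat.prime_of_mem_primeFactors hp
    have hf : (Nna n a).factorization p ≠ 0 := by
      have := hp
      rw [← Nat.support_factorization, Finsupp.mem_support_iff] at this
      exact this
    have hnth : Nat.nth Nat.Prime (Nat.primeCounting' p) = p := by
      rw [Nat.primeCounting']; exact Nat.nth_count hpp
    rw [← hnth, Nna_factorization n a _ ha] at hf
    have hlt : Nat.primeCounting' p < a := by
      by_contra hcon
      rw [if_neg hcon] at hf
      by_cases h0 : Nat.primeCounting' p = 0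
      · omega
      · rw [if_neg h0] at hf; exact hf rfl
    have : Nat.primeCounting p = Nat.primeCounting' p + 1 := by
      rw [Nat.primeCounting, Nat.primeCounting', Nat.count_succ, if_pos hpp]
    omega
  · have hmem : Nat.nth Nat.Prime (a - 1) ∈ (Nna n a).primeFactors := by
      rw [← Nat.support_factorization, Finsupp.mem_support_iff, Nna_factorization n a _ ha,
        if_pos (by omega : a - 1 < a)]
      omega
    have h1 := Finset.le_sup (f := Nat.primeCounting) hmem
    have h2 : Nat.primeCounting (Nat.nth Nat.Prime (a - 1)) = a := by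
      rw [Nat.primeCounting, Nat.primeCounting', Nat.count_succ, if_pos (nth_prime_prime _),
        Nat.count_nth_of_infinite Nat.infinite_setOfPred_prime]
      omega
    rw [h2] at h1
    exact h1

lemma genFib_small (n a m : ℕ) (ha : 1 ≤ a) (hm : m ≤ a) : genFib (Nna n a) m = 1 := by
  rw [genFib, dif_pos]
  rw [Nna_topIndex n a ha]; exact hm

lemma genFib_large (n a m : ℕ) (ha : 1 ≤ a) (hm : a ≤ m) :
    genFib (Nna n a) (m + 1) = (n - a) * genFib (Nna n a) m
      + ∑ j ∈ Finset.range a, genFib (Nna n a) (m - j) := by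
  rw [genFib, dif_neg (by rw [Nna_topIndex n a ha]; omega)]
  rw [Fin.sum_univ_eq_sum_range (fun i => (Nna n a).factorization (Nat.nth Nat.Prime i)
    * genFib (Nna n a) (m + 1 - (i + 1))) (topIndex (Nna n a)), Nna_topIndex n a ha]
  have h1 : ∀ i ∈ Finset.range a, (Nna n a).factorization (Nat.nth Nat.Prime i)
      * genFib (Nna n a) (m + 1 - (i + 1))
      = (if i = 0 then (n - a) * genFib (Nna n a) m else 0) + genFib (Nna n a) (m - i) := by
    intro i hi
    rw [Finset.mem_range] at hi
    rw [Nna_factorization n a i ha, if_pos hi]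
    have h2 : m + 1 - (i + 1) = m - i := by omega
    rw [h2]
    by_cases h0 : i = 0
    · subst h0; simp only [if_true, Nat.sub_zero]; ring
    · rw [if_neg h0, if_neg h0]; ring
  rw [Finset.sum_congr rfl h1, Finset.sum_add_distrib, Finset.sum_ite_eq' (Finset.range a) 0,
    if_pos (Finset.mem_range.2 (by omega))]

lemma genFib_pos (n a m : ℕ) (ha : 1 ≤ a) : 1 ≤ genFib (Nna n a) m := by
  induction m with
  | zero => rw [genFib_small n a 0 ha (by omega)]
  | succ m ih =>
    by_cases hm : m + 1 ≤ a
    · rw [genFib_small n a _ ha hm]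
    · rw [genFib_large n a m ha (by omega)]
      have h1 : genFib (Nna n a) (m - 0) ≤ ∑ j ∈ Finset.range a, genFib (Nna n a) (m - j) :=
        Finset.single_le_sum (f := fun j => genFib (Nna n a) (m - j)) (fun _ _ => Nat.zero_le _)
          (Finset.mem_range.2 (by omega))
      rw [Nat.sub_zero] at h1
      omega

lemma genFib_mono (n a : ℕ) (ha : 1 ≤ a) : Monotone (genFib (Nna n a)) := by
  apply monotone_nat_of_le_succ
  intro m
  by_cases hm : m + 1 ≤ a
  · rw [genFib_small n a _ ha hm, genFib_small n a _ ha (by omega)]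
  · rw [genFib_large n a m ha (by omega)]
    have h1 : genFib (Nna n a) (m - 0) ≤ ∑ j ∈ Finset.range a, genFib (Nna n a) (m - j) :=
      Finset.single_le_sum (f := fun j => genFib (Nna n a) (m - j)) (fun _ _ => Nat.zero_le _)
        (Finset.mem_range.2 (by omega))
    rw [Nat.sub_zero] at h1
    omega

/-! ## Words and spans -/

section Main

variable {K : Type u} [Field K] {n : ℕ} {V : Type v} [AddCommGroup V] [Module K V]

/-- A multilinear map sends spans into a submodule as soon as it does so for the spanning sets. -/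
lemma multilinear_span (m : MultilinearMap K (fun _ : Fin n => V) V) (X : Fin n → Set V)
    (P : Submodule K V) (h : ∀ b : Fin n → V, (∀ i, b i ∈ X i) → m b ∈ P) :
    ∀ w : Fin n → V, (∀ i, w i ∈ Submodule.span K (X i)) → m w ∈ P := by
  classical
  have key : ∀ (s : Finset (Fin n)) (w : Fin n → V), (∀ i ∈ s, w i ∈ Submodule.span K (X i)) →
      (∀ i ∉ s, w i ∈ X i) → m w ∈ P := by
    intro s
    induction s using Finset.induction_on with
    | empty => intro w _ h2; exact h w fun i => h2 i (by simp)
    | insert i s his ih =>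
      intro w h1 h2
      have hw : ∀ x ∈ Submodule.span K (X i), m (Function.update w i x) ∈ P := by
        intro x hx
        induction hx using Submodule.span_induction with
        | mem x hx =>
          apply ih
          · intro j hj
            have hji : j ≠ i := fun e => his (e ▸ hj)
            rw [Function.update_of_ne hji]
            exact h1 j (Finset.mem_insert_of_mem hj)
          · intro j hj
            by_cases hji : j = i
            · subst hji; rw [Function.update_self]; exact hx
            · rw [Function.update_of_ne hji]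
              exact h2 j (by simp [hji, hj])
        | zero => rw [m.map_update_zero]; exact P.zero_mem
        | add x y _ _ hx hy => rw [m.map_update_add]; exact P.add_mem hx hy
        | smul c x _ hx => rw [m.map_update_smul]; exact P.smul_mem c hx
      have := hw (w i) (h1 i (Finset.mem_insert_self i s))
      rwa [Function.update_eq_self] at this
  intro w hw
  exact key Finset.univ w (fun i _ => hw i) (fun i hi => absurd (Finset.mem_univ i) hi)

variable (m : MultilinearMap K (fun _ : Fin n => V) V) (S : Set V)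

lemma wordSpan_mono {i j : ℕ} (h : i ≤ j) : wordSpan m S i ≤ wordSpan m S j :=
  Submodule.span_mono fun _ ⟨ℓ, hℓ, hw⟩ => ⟨ℓ, hℓ.trans h, hw⟩

lemma wordSpan_mul (ℓ : Fin n → ℕ) (w : Fin n → V) (h : ∀ i, w i ∈ wordSpan m S (ℓ i)) :
    m w ∈ wordSpan m S (∑ i, ℓ i) := by
  refine multilinear_span m (fun i => {v | ∃ l ≤ ℓ i, IsWord m S l v}) _ ?_ w h
  intro b hb
  choose l hl hw using hb
  exact Submodule.subset_span ⟨∑ i, l i, Finset.sum_le_sum fun i _ => hl i, IsWord.op l b hw⟩

lemma IsWord.one_le {m : MultilinearMap K (fun _ : Fin n => V) V} {S : Set V} (hn : 2 ≤ n)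
    {ℓ : ℕ} {v : V} (h : IsWord m S ℓ v) : 1 ≤ ℓ := by
  induction h with
  | gen => exact le_rfl
  | op l w _ ih =>
    have h1 : l ⟨0, by omega⟩ ≤ ∑ i, l i :=
      Finset.single_le_sum (f := l) (fun _ _ => Nat.zero_le _) (Finset.mem_univ _)
    exact (ih ⟨0, by omega⟩).trans h1

lemma wordSpan_zero (hn : 2 ≤ n) : wordSpan m S 0 = ⊥ := by
  rw [wordSpan, Submodule.span_eq_bot]
  rintro v ⟨ℓ, hℓ, hw⟩
  have := hw.one_le hn
  omega

/-- An adapted family of bases of the filtration. -/
lemma exists_adapted (hn : 2 ≤ n) : ∃ B : ℕ → Set V, (∀ i, LinearIndepOn K id (B i)) ∧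
    (∀ i, Submodule.span K (B i) = wordSpan m S i) ∧ (∀ i, B i ⊆ B (i + 1)) ∧ B 0 = ∅ := by
  classical
  have step : ∀ (i : ℕ) (b : Set V), LinearIndepOn K id b → Submodule.span K b = wordSpan m S i →
      ∃ b' : Set V, LinearIndepOn K id b' ∧ Submodule.span K b' = wordSpan m S (i + 1) ∧ b ⊆ b' := by
    intro i b hb hspan
    have hsub : b ⊆ (wordSpan m S (i + 1) : Set V) := by
      intro x hx
      apply wordSpan_mono m S (Nat.le_succ i)
      rw [← hspan]; exact Submodule.subset_span hx
    obtain ⟨b', hb't, hbb', hspan', hlin⟩ := exists_linearIndepOn_id_extension hb hsub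
    refine ⟨b', hlin, ?_, hbb'⟩
    apply le_antisymm
    · exact Submodule.span_le.2 hb't
    · intro x hx; exact hspan' hx
  let F : (i : ℕ) → {b : Set V // LinearIndepOn K id b ∧ Submodule.span K b = wordSpan m S i} :=
    fun i => Nat.rec ⟨∅, by simp, by rw [Submodule.span_empty, wordSpan_zero m S hn]⟩
      (fun i b => ⟨(step i b.1 b.2.1 b.2.2).choose, (step i b.1 b.2.1 b.2.2).choose_spec.1,
        (step i b.1 b.2.1 b.2.2).choose_spec.2.1⟩) i
  refine ⟨fun i => (F i).1, fun i => (F i).2.1, fun i => (F i).2.2, ?_, rfl⟩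
  intro i
  exact (step i (F i).1 (F i).2.1 (F i).2.2).choose_spec.2.2

/-- The level of a vector in an increasing family of sets. -/
noncomputable def lev (B : ℕ → Set V) (b : V) : ℕ := sInf {i | b ∈ B i}

section Lev

variable {B : ℕ → Set V}

omit [AddCommGroup V] in
lemma lev_mem {b : V} {i : ℕ} (h : b ∈ B i) : b ∈ B (lev B b) :=
  Nat.sInf_mem (s := {i | b ∈ B i}) ⟨i, h⟩

omit [AddCommGroup V] in
lemma lev_le {b : V} {i : ℕ} (h : b ∈ B i) : lev B b ≤ i := Nat.sInf_le h

omit [AddCommGroup V] in
lemma lev_pos (h0 : B 0 = ∅) {b : V} {i : ℕ} (h : b ∈ B i) : 1 ≤ lev B b := by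
  by_contra hcon
  have h1 : lev B b = 0 := by omega
  have h2 := lev_mem h
  rw [h1, h0] at h2
  exact h2

end Lev

variable [FiniteDimensional K V]

lemma adapted_finite {B : ℕ → Set V} (hlin : ∀ i, LinearIndepOn K id (B i)) (i : ℕ) :
    (B i).Finite := by
  have h : LinearIndependent K (fun x : B i => (x : V)) := hlin i
  exact h.setFinite

lemma adapted_finrank {B : ℕ → Set V} (hlin : ∀ i, LinearIndepOn K id (B i))
    (hspan : ∀ i, Submodule.span K (B i) = wordSpan m S i) (i : ℕ) :
    Module.finrank K (wordSpan m S i) = (B i).ncard := by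
  classical
  have hfin := adapted_finite hlin i
  have : Fintype (B i) := hfin.fintype
  have h : LinearIndependent K (fun x : B i => (x : V)) := hlin i
  rw [← hspan i, finrank_span_set_eq_card h, Set.ncard_eq_toFinset_card']

/-- The sum of the levels of `r` different basis vectors. -/
lemma lev_sum (n' a : ℕ) (ha : 1 ≤ a) {B : ℕ → Set V} (hlin : ∀ i, LinearIndepOn K id (B i))
    (hspan : ∀ i, Submodule.span K (B i) = wordSpan m S i) (hmono : Monotone B) (h0 : B 0 = ∅)
    (i : ℕ) (ih : ∀ u, 1 ≤ u → u ≤ i → wordSpan m S u ≠ wordSpan m S (u - 1) →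
      u ≤ genFib (Nna n' a) (Module.finrank K (wordSpan m S (u - 1)) + 1)) :
    ∀ (r : ℕ) (D : Finset V), (D : Set V) ⊆ B i → D.card = r →
      ∑ b ∈ D, lev B b ≤ ∑ j ∈ Finset.range r, genFib (Nna n' a) ((B i).ncard - j) := by
  classical
  intro r
  induction r with
  | zero =>
    intro D _ hD
    rw [Finset.card_eq_zero] at hD
    subst hD; simp
  | succ r ihr =>
    intro D hDB hD
    have hne : D.Nonempty := by rw [← Finset.card_pos, hD]; omega
    obtain ⟨b, hb, hmin⟩ := Finset.exists_min_image D (lev B) hne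
    have hbB : b ∈ B i := hDB hb
    have hu1 : 1 ≤ lev B b := lev_pos h0 hbB
    have hui : lev B b ≤ i := lev_le hbB
    have hdisj : Disjoint (B (lev B b - 1)) (D : Set V) := by
      rw [Set.disjoint_left]
      intro c hc hcD
      have h1 := hmin c hcD
      have h2 := lev_le hc
      omega
    have hcard : (B (lev B b - 1)).ncard + (r + 1) ≤ (B i).ncard := by
      rw [← hD, ← Set.ncard_coe_finset D, ← Set.ncard_union_eq hdisj (adapted_finite hlin _)
        D.finite_toSet]
      exact Set.ncard_le_ncard (Set.union_subset (hmono (by omega)) hDB) (adapted_finite hlin i)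
    have hbn : b ∉ B (lev B b - 1) := fun h => by have := lev_le h; omega
    have hssub : (B (lev B b - 1)).ncard < (B (lev B b)).ncard := by
      apply Set.ncard_lt_ncard _ (adapted_finite hlin _)
      refine ⟨hmono (by omega), fun h => hbn (h (lev_mem hbB))⟩
    have hneq : wordSpan m S (lev B b) ≠ wordSpan m S (lev B b - 1) := by
      intro h
      rw [← adapted_finrank m S hlin hspan, ← adapted_finrank m S hlin hspan, h] at hssub
      exact lt_irrefl _ hssub
    have hu := ih (lev B b) hu1 hui hneq
    rw [adapted_finrank m S hlin hspan] at hu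
    have hu' : lev B b ≤ genFib (Nna n' a) ((B i).ncard - r) :=
      hu.trans (genFib_mono n' a ha (by omega))
    have hrest := ihr (D.erase b) (fun x hx => hDB (Finset.mem_of_mem_erase hx))
      (by rw [Finset.card_erase_of_mem hb, hD]; rfl)
    rw [Finset.sum_range_succ, ← Finset.add_sum_erase D (lev B) hb]
    omega

/-- The key estimate: the filtration can only jump at `i` if `i ≤ F(dim L_{i-1} + 1)`. -/
lemma jump_le (hn : 2 ≤ n) (h2 : (2 : K) ≠ 0) (A : Finset (Fin n)) (hA : A.card ≠ 1)
    (hcomm : ∀ i ∈ A, ∀ j ∈ A, i ≠ j → ∀ x : Fin n → V, m (x ∘ Equiv.swap i j) = - m x)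
    (a : ℕ) (haA : a = if A.card = 0 then 1 else A.card) :
    ∀ i, 1 ≤ i → wordSpan m S i ≠ wordSpan m S (i - 1) →
      i ≤ genFib (Nna n a) (Module.finrank K (wordSpan m S (i - 1)) + 1) := by
  classical
  have ha : 1 ≤ a := by
    rw [haA]; split_ifs <;> omega
  have hAn : A.card ≤ n := by simpa using Finset.card_le_univ A
  obtain ⟨B, hlin, hspan, hstep, h0⟩ := exists_adapted m S hn
  have hmono : Monotone B := monotone_nat_of_le_succ hstep
  intro i
  induction i using Nat.strong_induction_on with
  | _ i ih =>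
  intro hi1 hneq
  by_cases hi2 : i = 1
  · subst hi2; exact genFib_pos n a _ ha
  by_contra hcon
  rw [not_le, adapted_finrank m S hlin hspan] at hcon
  apply hneq
  apply le_antisymm _ (wordSpan_mono m S (by omega))
  rw [wordSpan, Submodule.span_le]
  rintro v ⟨ℓ, hℓ, hw⟩
  rcases Nat.lt_or_ge ℓ i with hlt | hge
  · exact Submodule.subset_span ⟨ℓ, by omega, hw⟩
  have hℓi : ℓ = i := le_antisymm hℓ hge
  cases hw with
  | gen s hs => omega
  | op l w hw =>
  have hl1 : ∀ j, 1 ≤ l j := fun j => (hw j).one_le hn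
  have hli : ∀ j, l j ≤ i - 1 := by
    intro j
    obtain ⟨j', hj'⟩ : ∃ j' : Fin n, j' ≠ j := by
      by_cases hj0 : j = ⟨0, by omega⟩
      · exact ⟨⟨1, by omega⟩, by rw [hj0]; intro h; simp at h⟩
      · exact ⟨⟨0, by omega⟩, fun h => hj0 h.symm⟩
    have h1 : l j + l j' ≤ ∑ p, l p := by
      rw [← Finset.sum_pair hj'.symm]
      exact Finset.sum_le_sum_of_subset (Finset.subset_univ _)
    have h3 := hl1 j'
    omega
  have hwj : ∀ j, w j ∈ Submodule.span K (B (l j)) := by
    intro j
    rw [hspan]
    exact Submodule.subset_span ⟨l j, le_rfl, hw j⟩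
  refine multilinear_span m (fun j => B (l j)) _ ?_ w hwj
  intro b hb
  have hbB : ∀ j, b j ∈ B (i - 1) := fun j => hmono (hli j) (hb j)
  by_cases hinj : Set.InjOn b (A : Set (Fin n))
  · have hIH : ∀ u, 1 ≤ u → u ≤ i - 1 → wordSpan m S u ≠ wordSpan m S (u - 1) →
        u ≤ genFib (Nna n a) (Module.finrank K (wordSpan m S (u - 1)) + 1) :=
      fun u h1 h3 h4 => ih u (by omega) h1 h4
    have hlevj : ∀ j, lev B (b j) ≤ genFib (Nna n a) ((B (i - 1)).ncard) := by
      intro j
      have := lev_sum m S n a ha hlin hspan hmono h0 (i - 1) hIH 1 {b j}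
        (by simpa using hbB j) (Finset.card_singleton _)
      simpa using this
    have hlevA : ∑ j ∈ A, lev B (b j)
        ≤ ∑ r ∈ Finset.range A.card, genFib (Nna n a) ((B (i - 1)).ncard - r) := by
      have h1 := lev_sum m S n a ha hlin hspan hmono h0 (i - 1) hIH A.card (A.image b)
        (by intro x hx; rw [Finset.mem_coe, Finset.mem_image] at hx
            obtain ⟨j, _, rfl⟩ := hx; exact hbB j)
        (Finset.card_image_of_injOn hinj)
      rwa [Finset.sum_image hinj] at h1
    have hlevC : ∑ j ∈ Aᶜ, lev B (b j)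
        ≤ (n - A.card) * genFib (Nna n a) ((B (i - 1)).ncard) := by
      have h1 := Finset.sum_le_card_nsmul Aᶜ (fun j => lev B (b j)) _ (fun j _ => hlevj j)
      rwa [Finset.card_compl, Fintype.card_fin, smul_eq_mul] at h1
    have htot : ∑ j, lev B (b j) = ∑ j ∈ A, lev B (b j) + ∑ j ∈ Aᶜ, lev B (b j) :=
      (Finset.sum_add_sum_compl A _).symm
    have hbound : ∑ j, lev B (b j) ≤ genFib (Nna n a) ((B (i - 1)).ncard + 1) := by
      have hApos : A.card = 0 ∨ 2 ≤ A.card := by omega
      rcases hApos with hA0 | hA2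
      · have ha1 : a = 1 := by rw [haA, if_pos hA0]
        have hT : 1 ≤ (B (i - 1)).ncard := by
          rw [Nat.succ_le_iff, Set.ncard_pos (adapted_finite hlin _)]
          exact ⟨b ⟨0, by omega⟩, hbB _⟩
        rw [genFib_large n a _ ha (by omega)]
        rw [hA0] at hlevA hlevC
        have hsum1 : ∑ j ∈ Finset.range a, genFib (Nna n a) ((B (i - 1)).ncard - j)
            = genFib (Nna n a) ((B (i - 1)).ncard) := by
          conv_lhs => rw [show Finset.range a = Finset.range 1 by rw [ha1]]
          simp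
        rw [hsum1]
        have hn1 : (n - 0) * genFib (Nna n a) ((B (i - 1)).ncard)
            = (n - a) * genFib (Nna n a) ((B (i - 1)).ncard)
              + genFib (Nna n a) ((B (i - 1)).ncard) := by
          have : n - 0 = (n - a) + 1 := by omega
          rw [this]; ring
        have hz : ∑ r ∈ Finset.range 0, genFib (Nna n a) ((B (i - 1)).ncard - r) = 0 := by simp
        omega
      · have haA' : a = A.card := by rw [haA, if_neg (by omega)]
        have hT : A.card ≤ (B (i - 1)).ncard := by
          rw [← Finset.card_image_of_injOn hinj, ← Set.ncard_coe_finset]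
          apply Set.ncard_le_ncard _ (adapted_finite hlin _)
          intro x hx; rw [Finset.mem_coe, Finset.mem_image] at hx
          obtain ⟨j, _, rfl⟩ := hx; exact hbB j
        rw [genFib_large n a _ ha (by omega)]
        rw [← haA'] at hlevA hlevC
        omega
    have hmem : m b ∈ wordSpan m S (∑ j, lev B (b j)) := by
      apply wordSpan_mul
      intro j
      rw [← hspan]
      exact Submodule.subset_span (lev_mem (hb j))
    exact wordSpan_mono m S (by omega) hmem
  · rw [Set.InjOn] at hinj
    push Not at hinj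
    obtain ⟨p, hp, q, hq, hpq, hne⟩ := hinj
    have h1 : b ∘ Equiv.swap p q = b := by
      funext j
      simp only [Function.comp_apply]
      by_cases hjp : j = p
      · subst hjp; rw [Equiv.swap_apply_left, hpq]
      · by_cases hjq : j = q
        · subst hjq; rw [Equiv.swap_apply_right, hpq]
        · rw [Equiv.swap_apply_of_ne_of_ne hjp hjq]
    have h3 := hcomm p hp q hq hne b
    rw [h1] at h3
    have h4 : (2 : K) • m b = 0 := by
      rw [two_smul]
      nth_rewrite 1 [h3]
      exact neg_add_cancel _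
    have h5 : m b = 0 := by
      rcases smul_eq_zero.1 h4 with h | h
      · exact absurd h h2
      · exact h
    rw [h5]; exact Submodule.zero_mem _

/-- For a generating set the length is at most the generalised Fibonacci number. -/
lemma setLength_le (hn : 2 ≤ n) (h2 : (2 : K) ≠ 0) (A : Finset (Fin n)) (hA : A.card ≠ 1)
    (hcomm : ∀ i ∈ A, ∀ j ∈ A, i ≠ j → ∀ x : Fin n → V, m (x ∘ Equiv.swap i j) = - m x)
    (a : ℕ) (haA : a = if A.card = 0 then 1 else A.card)
    (hgen : ∀ v : V, ∃ i, v ∈ wordSpan m S i) :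
    (∃ i, 1 ≤ i ∧ wordSpan m S i = ⊤) ∧
      setLength m S ≤ genFib (Nna n a) (Module.finrank K V) := by
  classical
  have ha : 1 ≤ a := by
    rw [haA]; split_ifs <;> omega
  have hne : ∃ i, 1 ≤ i ∧ wordSpan m S i = ⊤ := by
    choose f hf using fun j => hgen (Module.finBasis K V j)
    refine ⟨Finset.univ.sup f + 1, by omega, ?_⟩
    rw [eq_top_iff, ← (Module.finBasis K V).span_eq, Submodule.span_le]
    rintro _ ⟨j, rfl⟩
    refine wordSpan_mono m S ?_ (hf j)
    have := Finset.le_sup (f := f) (Finset.mem_univ j)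
    omega
  refine ⟨hne, ?_⟩
  have hmem := Nat.sInf_mem hne
  change 1 ≤ setLength m S ∧ wordSpan m S (setLength m S) = ⊤ at hmem
  by_cases h1 : setLength m S = 1
  · rw [h1]; exact genFib_pos n a _ ha
  have hlt : setLength m S - 1 < setLength m S := by omega
  have hnot := Nat.notMem_of_lt_sInf (s := {i | 1 ≤ i ∧ wordSpan m S i = ⊤}) hlt
  have hnt : wordSpan m S (setLength m S - 1) ≠ ⊤ := fun h => hnot ⟨by omega, h⟩
  have h3 := jump_le m S hn h2 A hA hcomm a haA (setLength m S) hmem.1
    (by rw [hmem.2]; exact fun h => hnt h.symm)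
  exact h3.trans (genFib_mono n a ha (Submodule.finrank_lt hnt))

end Main

/-- **Theorem.** Let `K` be a field with `2 ≠ 0` (for instance `K = ℂ`), `n ≥ 2`, let
`A, C ⊆ {1, …, n}` be disjoint with `|A| ≠ 1`, and `k ≥ 1`. Every `k`-dimensional
`(A, C)`-commutative `n`-ary `K`-algebra has length at most `F_{N_{n,a}}(k)`, where `a = |A|` if
`|A| ≥ 2` and `a = 1` if `|A| = 0`. (The first clause records that the minimum in the definition of
`l(S)` is attained for every finite generating set `S`.) -/
theorem result (K : Type u) [Field K] (h2 : (2 : K) ≠ 0) (n : ℕ) (hn : 2 ≤ n)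
    (A C : Finset (Fin n)) (_hAC : Disjoint A C) (hA : A.card ≠ 1) (k : ℕ) (_hk : 1 ≤ k)
    (V : Type v) [AddCommGroup V] [Module K V] [FiniteDimensional K V]
    (hV : Module.finrank K V = k) (m : MultilinearMap K (fun _ : Fin n => V) V)
    (hm : ACCommutative A C m) :
    (∀ S : Finset V, (∀ v : V, ∃ i, v ∈ wordSpan m (S : Set V) i) →
      1 ≤ setLength m (S : Set V) ∧ wordSpan m (S : Set V) (setLength m (S : Set V)) = ⊤) ∧
    algLength m ≤ (genFib (Nna n (if A.card = 0 then 1 else A.card)) k : ℕ) := by
  constructor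
  · intro S hS
    have h := (setLength_le m (S : Set V) hn h2 A hA hm.1 _ rfl hS).1
    exact Nat.sInf_mem h
  unfold algLength
  refine iSup_le fun S => iSup_le fun hS => ?_
  have h := (setLength_le m (S : Set V) hn h2 A hA hm.1 _ rfl hS).2
  rw [hV] at h
  exact_mod_cast h

end Pool.Agent.Results.MP_dca5dd_al.LengthBound
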